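import Pool.Agent.Helper13.TA.SCH
import Pool.Agent.Helper13.TA.TDV
import Pool.Agent.Helper13.TA.VTO
import Pool.Agent.Helper13.TA.WMG
import Pool.Agent.Helper13.TWR.LZ
import Pool.Agent.Helper19.TA.HUX
import Pool.Agent.Helper19.TWR.PSI
import Pool.Agent.Helper34.TA.SMC
import Pool.Agent.Helper34.TWR.SM0
import Pool.Agent.Helper46.TA.TCL
import Pool.Agent.Helper46.TA.TER
import Pool.Agent.Helper46.TA.VCL
import Pool.Agent.Helper49.TA.ABX
import Pool.Agent.Helper49.TA.HQB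
import Pool.Agent.Helper49.TA.WMF
import Pool.Agent.Helper53.TA.HQ0
import Pool.Agent.Helper53.TA.HQC
import Pool.Agent.Helper53.TA.RCI
import Pool.Agent.Helper59.TA.VC2
import Pool.Agent.Helper59.TA.WAL
import Pool.Agent.Helper59.TWR.KK
import Pool.Agent.Helper60.TA.SGT
import Pool.Agent.Helper60.TA.TKR
import Pool.Agent.Helper60.TA.TST
import Pool.Agent.Helper64.TA.HSM
import Pool.Agent.Helper64.TA.SME
import Pool.Agent.Helper72.TA.RSS
import Pool.Agent.Helper73.TA.BGN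
import Pool.Agent.Helper73.TA.VC1
import Pool.Agent.Helper73.TWR.CEC
import Pool.Agent.Helper73.TWR.IAJ
import Pool.Agent.Helper74.TA.HQS
import Pool.Agent.Helper89.TA.RG1
import Pool.Agent.Helper89.TWR.PSE
import Pool.Agent.Helper92.TA.RIE
import Pool.Agent.Helper92.TWR.BI
import Pool.Agent.Helper94.TA.SIN
import Pool.Agent.Helper94.TA.TKG
import Pool.Agent.Helper94.TA.VAP
import Pool.Agent.Helper94.TA.VFR
import Pool.Agent.Helper95.TA.TVC
import Pool.Agent.Helper95.TA.WTC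
import Pool.Agent.Helper95.TWR.SST
import Pool.Agent.Helper96.TWR.DNS
import Pool.Agent.Helper96.TWR.PFC
import Pool.Agent.Helper98.TA.BMT
import Pool.Agent.Helper98.TA.MHA
import Pool.Agent.Helper98.TA.VAL
import Pool.Agent.Helper99.TA.BSP
import Pool.Agent.Helper99.TA.ROR
import Pool.Agent.Helper99.TA.RSW
import Pool.Agent.Helper99.TA.RTH
import Pool.Agent.Helper99.TA.TEX
import Pool.Agent.Helper99.TA.VCO

/-!
The statement MHA of the sheet TA and what it needs, put together (a part of `Helper40/GA/All`).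
-/

open MeasureTheory

namespace Pool.Agent.Helper40.ZP

/-! ### sheet TW -/

section

open Pool.Agent.Helper98.TW

theorem w_CEC : ST_CEC := Pool.Agent.Helper73.TWR.st_CEC


theorem w_IAJ : ST_IAJ := Pool.Agent.Helper73.TWR.st_IAJ


theorem w_DNS : ST_DNS := Pool.Agent.Helper96.TWR.st_DNS


theorem w_PFC : ST_PFC := Pool.Agent.Helper96.TWR.st_PFC


theorem w_LZ : ST_LZ := Pool.Agent.Helper13.TWR.st_LZ w_CEC


theorem w_LT : ST_LT := Pool.Agent.Helper13.TWR.st_LT w_LZ w_DNS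


theorem w_SST : ST_SST := Pool.Agent.Helper95.TWR.st_SST


theorem w_SM0 : ST_SM0 := Pool.Agent.Helper34.TWR.st_SM0


theorem w_PSI : ST_PSI := Pool.Agent.Helper19.TWR.st_PSI w_CEC


theorem w_PSE : ST_PSE := Pool.Agent.Helper89.TWR.st_PSE


theorem w_KK : ST_KK := Pool.Agent.Helper59.TWR.st_KK w_PSI w_PSE


theorem w_BI : ST_BI := Pool.Agent.Helper92.TWR.st_BI

end

/-! ### sheet TA -/

section

open Pool.Agent.Helper98.TA

theorem a_BGN : ST_BGN := Pool.Agent.Helper73.TA.st_BGN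


theorem a_BSP : ST_BSP := Pool.Agent.Helper99.TA.st_BSP


theorem a_BMT : ST_BMT := Pool.Agent.Helper98.TA.st_BMT


theorem a_ABX : ST_ABX := Pool.Agent.Helper49.TA.st_ABX w_IAJ


theorem a_TER : ST_TER := Pool.Agent.Helper46.TA.st_TER


theorem a_SIN : ST_SIN := Pool.Agent.Helper94.TA.st_SIN w_LT w_IAJ a_ABX


theorem a_SCH : ST_SCH := Pool.Agent.Helper13.TA.st_SCH w_LT w_IAJ


theorem a_SGT : ST_SGT := Pool.Agent.Helper60.TA.st_SGT a_SCH


theorem a_SMC : ST_SMC := Pool.Agent.Helper34.TA.st_SMC w_SM0 w_SST w_IAJ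


theorem a_SME : ST_SME := Pool.Agent.Helper64.TA.st_SME a_SIN a_SMC a_ABX


theorem a_HQ0 : ST_HQ0 := Pool.Agent.Helper53.TA.st_HQ0


theorem a_HQS : ST_HQS := Pool.Agent.Helper74.TA.st_HQS a_BSP w_LZ w_PFC


theorem a_HQC : ST_HQC := Pool.Agent.Helper53.TA.st_HQC a_BGN w_LT


theorem a_HQB : ST_HQB := Pool.Agent.Helper49.TA.st_HQB


theorem a_HUX : ST_HUX := Pool.Agent.Helper19.TA.st_HUX a_HQ0 a_HQS a_HQC a_HQB a_SIN


theorem a_WMF : ST_WMF := Pool.Agent.Helper49.TA.st_WMF w_LZ w_DNS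


theorem a_WM1 : ST_WM1 := Pool.Agent.Helper13.TA.st_WM1


theorem a_WTC : ST_WTC := Pool.Agent.Helper95.TA.st_WTC a_WMF


theorem a_WAL : ST_WAL := Pool.Agent.Helper59.TA.st_WAL a_SME w_KK


theorem a_RSW : ST_RSW := Pool.Agent.Helper99.TA.st_RSW


theorem a_RSB : ST_RSB := Pool.Agent.Helper99.TA.st_RSB


theorem a_RCI : ST_RCI := Pool.Agent.Helper53.TA.st_RCI


theorem a_RTH : ST_RTH := Pool.Agent.Helper99.TA.st_RTH a_RSW w_LT w_PFC a_RCI


theorem a_RG1 : ST_RG1 := Pool.Agent.Helper89.TA.st_RG1 a_RSW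


theorem a_RSS : ST_RSS := Pool.Agent.Helper72.TA.st_RSS a_WAL a_WTC a_WM1


theorem a_RIE : ST_RIE := Pool.Agent.Helper92.TA.st_RIE a_RTH


theorem a_ROR : ST_ROR := Pool.Agent.Helper99.TA.st_ROR a_RG1 a_RTH w_LZ w_DNS w_PFC


theorem a_TEX : ST_TEX := Pool.Agent.Helper99.TA.st_TEX w_DNS


theorem a_TCL : ST_TCL := Pool.Agent.Helper46.TA.st_TCL


theorem a_TDV : ST_TDV := Pool.Agent.Helper13.TA.st_TDV w_LT w_IAJ a_TER


theorem a_TKG : ST_TKG := Pool.Agent.Helper94.TA.st_TKG w_LZ w_DNS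


theorem a_TKR : ST_TKR := Pool.Agent.Helper60.TA.st_TKR a_TEX a_TDV a_TCL w_LZ


theorem a_TVC : ST_TVC := Pool.Agent.Helper95.TA.st_TVC w_CEC


theorem a_TST : ST_TST := Pool.Agent.Helper60.TA.st_TST a_TEX a_TKR a_TKG a_TVC a_WAL a_TCL a_TER


theorem a_VC2 : ST_VC2 := Pool.Agent.Helper59.TA.st_VC2 w_KK w_BI


theorem a_VC1 : ST_VC1 := Pool.Agent.Helper73.TA.st_VC1 w_DNS w_LZ w_IAJ w_PFC a_BMT


theorem a_HSM : ST_HSM := Pool.Agent.Helper64.TA.st_HSM a_SMC a_BMT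


theorem a_VCL : ST_VCL := Pool.Agent.Helper46.TA.st_VCL a_HSM a_VC1 a_VC2 a_BMT


theorem a_VCO : ST_VCO := Pool.Agent.Helper99.TA.st_VCO a_BMT


theorem a_VTO : ST_VTO := Pool.Agent.Helper13.TA.st_VTO w_LZ w_DNS a_VCO


theorem a_VAP : ST_VAP := Pool.Agent.Helper94.TA.st_VAP w_DNS w_LZ


theorem a_VFR : ST_VFR := Pool.Agent.Helper94.TA.st_VFR a_VCO a_VAP a_ROR


theorem a_VAL : ST_VAL := Pool.Agent.Helper98.TA.st_VAL a_ABX a_RSB a_RSS a_RIE a_VCL a_VTO a_VFR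


theorem a_MHA : ST_MHA := Pool.Agent.Helper98.TA.st_MHA a_BMT a_ABX a_SGT a_SMC a_HUX a_VAL a_TST
  a_TCL

end

end Pool.Agent.Helper40.ZP
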