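import Pool.Agent.Helper40.ZP.Fin
import Pool.Agent.Helper40.ZP.TAll
import Pool.Agent.Helper40.MR.All
import Pool.Agent.Helper13.MD.WND
import Pool.Agent.Helper61.AZ.KT1
import Pool.Agent.Helper61.MD.TKA
import Pool.Agent.Helper61.SO.MER
import Pool.Agent.Helper34.ZA.ZCO
import Pool.Agent.Helper49.ZA.ZAC
import Pool.Agent.Helper49.ZA.ZTR
import Pool.Agent.Helper53.ZA.ZTY
import Pool.Agent.Helper59.ZA.ZUE
import Pool.Agent.Helper73.ZA.ZFT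
import Pool.Agent.Helper72.ZA.ZPH
import Pool.Agent.Helper73.ZA.ZAP
import Pool.Agent.Helper73.ZA.ZCE
import Pool.Agent.Helper73.ZA.ZMR
import Pool.Agent.Helper92.ZA.ZKB
import Pool.Agent.Helper94.ZA.ZPP
import Pool.Agent.Helper94.ZA.ZTB
import Pool.Agent.Helper98.ZA.ZAO
import Pool.Agent.Helper98.ZA.ZMN
import Pool.Agent.Helper99.ZA.ZMJ
import Pool.Agent.Helper99.ZA.ZRL

/-!
All the modules of the theorem on uniquely ergodic models of abelian distal systems put together.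
-/

open MeasureTheory

namespace Pool.Agent.Helper40.ZP

open Pool.Agent.Helper98.ZA
open Pool.Agent.Helper40.ZPP (Triangular UniquelyErgodic)
open Pool.Agent.Helper40.DZP (Vanish)

theorem z_ZCO : ST_ZCO := Pool.Agent.Helper34.ZA.st_ZCO

theorem z_ZAC : ST_ZAC := Pool.Agent.Helper49.ZA.st_ZAC

theorem z_ZTR : ST_ZTR := Pool.Agent.Helper49.ZA.st_ZTR

theorem z_ZUE : ST_ZUE := Pool.Agent.Helper59.ZA.st_ZUE

theorem z_ZAP : ST_ZAP := Pool.Agent.Helper73.ZA.st_ZAP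

theorem z_ZCE : ST_ZCE := Pool.Agent.Helper73.ZA.st_ZCE

theorem z_ZMR : ST_ZMR := Pool.Agent.Helper73.ZA.st_ZMR Pool.Agent.Helper40.MR.all_NT

theorem z_KT1 : Pool.Agent.Helper16.AZ.ST_KT1 :=
  Pool.Agent.Helper16.AZ.st_KT1 Pool.Agent.Helper16.MD.st_TKA

theorem z_WND : Pool.Agent.Helper16.MD.ST_WND :=
  Pool.Agent.Helper16.MD.st_WND Pool.Agent.Helper17.SO.st_MER

theorem z_ZKB : ST_ZKB := Pool.Agent.Helper92.ZA.st_ZKB z_KT1 z_WND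

theorem z_ZPP : ST_ZPP := Pool.Agent.Helper94.ZA.st_ZPP

theorem z_ZTB : ST_ZTB := Pool.Agent.Helper94.ZA.st_ZTB w_LT

theorem z_ZMJ : ST_ZMJ := Pool.Agent.Helper99.ZA.st_ZMJ

theorem z_ZRL : ST_ZRL := Pool.Agent.Helper99.ZA.st_ZRL

theorem z_ZAO : ST_ZAO := Pool.Agent.Helper98.ZA.st_ZAO a_MHA z_ZMJ

theorem z_ZFT : ST_ZFT := Pool.Agent.Helper73.ZA.st_ZFT z_ZTB z_ZTR

theorem z_ZPH : ST_ZPH := Pool.Agent.Helper72.ZA.st_ZPH z_ZMR z_ZUE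

theorem z_ZTY : ST_ZTY := Pool.Agent.Helper53.ZA.st_ZTY z_ZRL z_ZFT z_ZPP z_ZAO z_ZAC

theorem z_ZMN : ST_ZMN :=
  Pool.Agent.Helper98.ZA.st_ZMN z_ZKB z_ZPH z_ZUE z_ZAC z_ZAP z_ZCO z_ZCE z_ZTY

/-- the theorem -/
theorem all_fin (Y : Type) [MetricSpace Y] [CompactSpace Y] [MeasurableSpace Y]
    [BorelSpace Y] (ν : Measure Y) (S : C(Y, Y)) (hS : UniquelyErgodic S ν)
    (hT : Triangular S ν) (F : C(Y, ℂ)) (y : Y) : Vanish S F y :=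
  fin z_ZMN Y ν S hS hT F y

end Pool.Agent.Helper40.ZP
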