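import Pool.Agent.Helper40.ZP.Pub
import Pool.Agent.Helper40.DZ.Pub
import Pool.Agent.Helper98.ZA.Stmts

/-!
The last step: from the statement ZMN of the sheet ZA to the hand-in.
-/

open Finset Filter MeasureTheory Topology
open scoped ComplexConjugate

namespace Pool.Agent.Helper40.ZP

open Pool.Agent.Helper98.ZA (Tu Un ST_ZMN)
open Pool.Agent.Helper40.ZPP (Triangular UniquelyErgodic)
open Pool.Agent.Helper40.DZP (Vanish)

theorem tu_of {Y : Type} [MeasurableSpace Y] [StandardBorelSpace Y] {ν : Measure Y} {S : Y → Y}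
    (h : Triangular S ν) : ∃ u : ℕ → Y → ℂ, Tu ν S u := by
  obtain ⟨u, f, hu, hf, hS, A, hA, hA0, hinj⟩ := h
  refine ⟨u, fun k => (hu k).1, fun k => (hu k).2, fun k => ⟨f k, hf k, ?_⟩, fun s hs => ?_⟩
  · filter_upwards [hS k] with y hy
    rw [hy, mul_comm]
  · have hst : StandardBorelSpace A := hA.standardBorel
    let U : Y → (ℕ → ℂ) := fun y k => u k y
    have hUm : ∀ m : MeasurableSpace Y, (∀ k, Measurable[m] (u k)) → Measurable[m] U :=
      fun m hm => @measurable_pi_lambda Y ℕ (fun _ => ℂ) m _ _ hm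
    have hU : Measurable (fun y : A => U y.1) :=
      (hUm _ fun k => (hu k).1).comp measurable_subtype_coe
    have hUi : Function.Injective (fun y : A => U y.1) := by
      intro y y' hyy
      exact Subtype.ext (hinj y.1 y.2 y'.1 y'.2 fun k => congrFun hyy k)
    have hE : MeasurableEmbedding (fun y : A => U y.1) := hU.measurableEmbedding hUi
    have hW : MeasurableSet ((fun y : A => U y.1) '' (Subtype.val ⁻¹' s)) :=
      hE.measurableSet_image.2 (measurable_subtype_coe hs)
    have hsup : Measurable[⨆ k, MeasurableSpace.comap (u k) inferInstance] U :=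
      hUm _ fun k => (comap_measurable (u k)).mono (le_iSup (fun k =>
        MeasurableSpace.comap (u k) (inferInstance : MeasurableSpace ℂ)) k) le_rfl
    refine ⟨U ⁻¹' ((fun y : A => U y.1) '' (Subtype.val ⁻¹' s)), hsup hW, ?_⟩
    have hae : ∀ᵐ y ∂ν, y ∈ A := by
      rw [ae_iff]
      exact hA0
    refine eventuallyEq_set.2 ?_
    filter_upwards [hae] with y hy
    constructor
    · intro hys
      exact ⟨⟨y, hy⟩, hys, rfl⟩
    · rintro ⟨y', hy', he⟩
      have : y'.1 = y := hinj y'.1 y'.2 y hy fun k => congrFun he k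
      rw [← this]
      exact hy'

/-- the theorem -/
theorem fin (hZ : ST_ZMN) (Y : Type) [MetricSpace Y] [CompactSpace Y] [MeasurableSpace Y]
    [BorelSpace Y] (ν : Measure Y) (S : C(Y, Y)) (hS : UniquelyErgodic S ν)
    (hT : Triangular S ν) (F : C(Y, ℂ)) (y : Y) : Vanish S F y := by
  obtain ⟨u, hu⟩ := tu_of hT
  obtain ⟨h1, h2, h3⟩ := hS
  exact hZ Y ν S u S.continuous ⟨h2, h3⟩ hu F y

end Pool.Agent.Helper40.ZP
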