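import Mathlib

/-!
Definitions used in the statement on uniquely ergodic models of abelian distal systems.
-/

open MeasureTheory

namespace Pool.Agent.Helper40.ZPP

variable {Y : Type} [MeasurableSpace Y]

/-- There is a sequence of measurable functions `u k` of modulus one on `Y` which separates the
points of a set of full measure, and for almost all `y` the quotient of `u k (S y)` and `u k y` is a
measurable function `f k` of the values `u i y` with `i < k`. -/
def Triangular (S : Y → Y) (ν : Measure Y) : Prop :=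
  ∃ (u : ℕ → Y → ℂ) (f : ∀ k : ℕ, (Fin k → ℂ) → ℂ),
    (∀ k, Measurable (u k) ∧ ∀ y, ‖u k y‖ = 1) ∧ (∀ k, Measurable (f k)) ∧
    (∀ k, ∀ᵐ y ∂ν, u k (S y) = f k (fun i => u i y) * u k y) ∧
    ∃ A : Set Y, MeasurableSet A ∧ ν Aᶜ = 0 ∧
      ∀ y ∈ A, ∀ y' ∈ A, (∀ k, u k y = u k y') → y = y'

/-- `ν` is the only probability measure which is invariant under `S` -/
def UniquelyErgodic (S : Y → Y) (ν : Measure Y) : Prop :=
  IsProbabilityMeasure ν ∧ MeasurePreserving S ν ν ∧
  ∀ ν' : Measure Y, IsProbabilityMeasure ν' → MeasurePreserving S ν' ν' → ν' = ν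

end Pool.Agent.Helper40.ZPP
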